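import Pool.Agent.Q20.BK.Bkd
import Pool.Agent.Q20.RL.Lfd

/-!
# The defect of the equivariant Beilinson conjecture: definitions and statements
-/

set_option autoImplicit false
set_option linter.unusedSectionVars false

namespace Pool.Agent.Q20.RS.RL.BL

open NumberField IsDedekindDomain Pool.Agent.Q20.RS.BK
open scoped Classical

/-- for all sufficiently large levels -/
def Ev {K : Type} [Field K] [NumberField K] {k : ℕ} {H : Motivic K k} (P : BLv K k H → Prop) :
    Prop :=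
  ∃ N₀ : Sub K, FinExt N₀ ∧ ∀ ℓ : BLv K k H, N₀ ≤ ℓ.N → P ℓ

/-- (0) The numbers `A_k(χ)` and L-functions `L_S(s, χ)` of characters `χ` of `Gal(K̄/F)` at all
sufficiently large levels are those of the representations of `Gal(N/F)` with character `χ` -/
def WellDefined (K : Type) [Field K] [NumberField K] (k : ℕ) (H : Motivic K k) : Prop :=
  ∀ F : Sub K, FinExt F → ∀ χ : Fn F, Char χ → Ev fun ℓ : BLv K k H =>
    (∃ (n : ℕ) (ρ : Representation ℂ (NFd ℓ.N ≃ₐ[SFd ℓ.N F] NFd ℓ.N) (Fin n → ℂ)), HasCh ρ χ) ∧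
    ∀ (U : Type) [AddCommGroup U] [Module ℂ U] [FiniteDimensional ℂ U]
      (ρ : Representation ℂ (NFd ℓ.N ≃ₐ[SFd ℓ.N F] NFd ℓ.N) U), HasCh ρ χ →
        ℓ.A χ = beilA ℓ.T (ℓ.map F) ρ ∧ ℓ.A χ ≠ 0 ∧ ∀ z : ℂ, ℓ.L χ z = artinLS ℓ.T ρ.character z

/-- (3) **Product formulas** for the Artin L-functions and the numbers `A_k(χ)` of the characters in
`V` -/
def Products (K : Type) [Field K] [NumberField K] (k : ℕ) (H : Motivic K k) : Prop :=
  ∀ (M : ℕ) (T : Set ℕ) (F : Sub K) (χ : Fn F), 0 < M → FinExt F → Char χ → InV T χ →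
    ∃ (m : ℕ) (l : List (Factor K)), 0 < m ∧ (∀ t ∈ l, t.ψ.cls M T) ∧ Ev fun ℓ : BLv K k H =>
      (∀ s : ℂ, 1 < s.re → ℓ.L χ s ^ m = (l.map fun t => ℓ.L t.ψ.fn s ^ t.e).prod) ∧
      ℓ.A χ ^ m = (l.map fun t => ℓ.A t.ψ.fn ^ t.e).prod

/-- Beilinson's equality for the `m`-th powers, for all automorphisms of `ℂ` -/
def Equality {K : Type} [Field K] [NumberField K] {k : ℕ} (H : Motivic K k) (m : ℕ)
    {F : Sub K} (χ : Fn F) : Prop :=
  Ev fun ℓ : BLv K k H => ∀ σ : ℂ ≃+* ℂ, σ (ℓ.A χ) ^ m = ℓ.A (conj σ χ) ^ m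

/-- the filter of the sufficiently large levels -/
def large {K : Type} [Field K] [NumberField K] {k : ℕ} (H : Motivic K k) : Filter (BLv K k H) :=
  ⨅ N₀ : {N₀ : Sub K // FinExt N₀}, Filter.principal {ℓ | N₀.1 ≤ ℓ.N}

/-- functions of the level and of the automorphism of `ℂ` with values in `ℂ^*`, modulo equality at
all sufficiently large levels -/
abbrev Germs {K : Type} [Field K] [NumberField K] {k : ℕ} (H : Motivic K k) : Type :=
  Filter.Germ (large H) ((ℂ ≃+* ℂ) → ℂˣ)

/-- the quotient of the group of germs by its torsion subgroup, written additively -/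
abbrev Defects {K : Type} [Field K] [NumberField K] {k : ℕ} (H : Motivic K k) : Type :=
  Additive (Germs H ⧸ CommGroup.torsion (Germs H))

/-- the element of `ℂ^*` -/
noncomputable def unt (z : ℂ) : ℂˣ := if h : z = 0 then 1 else Units.mk0 z h

/-- **The defect** of Beilinson's conjecture: the class of the germ of the function which maps the
level `ℓ` and the automorphism `σ` to `A_k(χ)^σ / A_k(χ^σ)` -/
noncomputable def defect {K : Type} [Field K] [NumberField K] {k : ℕ} (H : Motivic K k) (F : Sub K)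
    (χ : Fn F) : Defects H :=
  Additive.ofMul (QuotientGroup.mk ((fun (ℓ : BLv K k H) (σ : ℂ ≃+* ℂ) =>
    unt (σ (ℓ.A χ) / ℓ.A (conj σ χ)) : BLv K k H → (ℂ ≃+* ℂ) → ℂˣ) :
      Filter.Germ (large H) ((ℂ ≃+* ℂ) → ℂˣ)))

/-- (4) **Beilinson's conjecture up to powers**, granted up to powers for trivial and for class group
characters: it holds for the characters in `V`; for the characters of the extensions `L'/F` whose
inertia groups outside `T` have exponent two with an exponent `m` which depends only on `L'/F`; and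
the defect has local constants -/
def Beilinson (K : Type) [Field K] [NumberField K] (k : ℕ) (H : Motivic K k) : Prop :=
  ∀ (M : ℕ) (T : Set ℕ), 0 < M →
    (∀ F : Sub K, FinExt F → ∀ ψ : Lin F, ψ.cls M T → ∃ m : ℕ, 0 < m ∧ Equality H m ψ.fn) →
    (∀ F : Sub K, FinExt F → ∀ χ : Fn F, Char χ → InV T χ → ∃ m : ℕ, 0 < m ∧ Equality H m χ) ∧
    (∀ F L' : Sub K, FinExt F → FinExt L' →
      (∀ w : AlgebraicClosure K → ℝ, Outside T w → ∀ g ∈ F.fixingSubgroup, Inr w g →
        g ^ 2 ∈ L'.fixingSubgroup) →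
      ∃ m : ℕ, 0 < m ∧ ∀ ψ : Lin F, (∀ g : GalF F,
        (g : Gal(AlgebraicClosure K/K)) ∈ L'.fixingSubgroup → ψ.fn g = 1) → Equality H m ψ.fn) ∧
    HasLocalConstants T (defect H)

/-- (5) **Algebraicity** of the numbers `A_k(χ)`, granted for trivial and for class group
characters -/
def Algebraicity (K : Type) [Field K] [NumberField K] (k : ℕ) (H : Motivic K k) : Prop :=
  ∀ (M : ℕ) (T : Set ℕ), 0 < M →
    (∀ F : Sub K, FinExt F → ∀ ψ : Lin F, ψ.cls M T →
      Ev fun ℓ : BLv K k H => IsAlgebraic ℚ (ℓ.A ψ.fn)) →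
    ∀ F : Sub K, FinExt F → ∀ χ : Fn F, Char χ → InV T χ →
      Ev fun ℓ : BLv K k H => IsAlgebraic ℚ (ℓ.A χ)

end Pool.Agent.Q20.RS.RL.BL
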