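import Pool.Agent.Q20.BL.Bld
import Pool.Agent.Q20.BK.Brg
import Pool.Agent.Q20.BK.Bkp
import Pool.Agent.Q20.RL.Prd
import Pool.Agent.Q20.GD.Grm

/-!
# The defect of the equivariant Beilinson conjecture: proofs
-/

set_option autoImplicit false
set_option linter.unusedSectionVars false

namespace Pool.Agent.Q20.RS.RL.BL

open NumberField IsDedekindDomain Pool.Agent.Q20.RS.BK
open Pool.Agent.Q246.BI (Smooth IsCharacter induced)
open Pool.Agent.Q20.LG (RChar indF)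
open Pool.Agent.Q20.TR (bt)
open scoped Classical

section
variable {K : Type} [Field K] [NumberField K] {k : ℕ}

theorem well_defined (H : Motivic K k) : WellDefined K k H := BK.well_defined H

theorem products (H : Motivic K k) : Products K k H := by
  intro M T F χ hM hF hχ hV
  have h1 := ((principle (K := K) M T F χ hM hF (char_virt hF hχ)).out 0 1).1 hV
  obtain ⟨m, hm, h2⟩ := h1
  obtain ⟨h3, h4⟩ := ind_closure hF _ h2
  obtain ⟨l, hl, e⟩ := exists_factors (Q := fun F ψ => ψ.cls M T) h4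
  have h5 : total l = m • induced (bt K) F χ := by
    have h6 : (⟨_, h3⟩ : RChar F.fixingSubgroup) = m • ⟨χ, char_virt hF hχ⟩ := rfl
    rw [e, h6, map_nsmul]
    rfl
  have h7 : (((l.map Factor.term).map fun t =>
      t.e • induced (bt K) t.F t.fn).sum : (bt K).fixingSubgroup → ℂ) =
      m • induced (bt K) F χ := by
    rw [← h5]
    unfold total
    rw [List.map_map]
    rfl
  obtain ⟨N₀, hN₀, h8⟩ := GD.prod_of_mem hF hχ m
    (l := l.map Factor.term) (fun t ht => by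
      obtain ⟨t', ht', rfl⟩ := List.mem_map.1 ht
      exact ⟨t'.fin, (cls_unr (hl t' ht')).1⟩) h7
  refine ⟨m, l, hm, hl, N₀, hN₀, fun ℓ hℓ => ?_⟩
  obtain ⟨h9, h10⟩ := h8 ℓ.g hℓ
  refine ⟨fun s hs => ?_, ?_⟩
  · have h11 := h9 s hs
    rw [List.map_map] at h11
    exact h11
  · rw [List.map_map] at h10
    exact h10

theorem large_eq (H : Motivic K k) :
    large H = GD.larg (BLv.g (K := K) (k := k) (H := H)) := rfl

theorem defects_tfd (H : Motivic K k) : TorsionFreeDivisible (Defects H) :=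
  GD.dfs_tfd (BLv.g (K := K) (k := k) (H := H))

theorem defect_addInd (H : Motivic K k) : AddInd (defect H) :=
  GD.dft_addInd (BLv.g (K := K) (k := k) (H := H))

theorem defect_zero (H : Motivic K k) {F : Sub K} (hF : FinExt F) {χ : Fn F} (h : Char χ) :
    defect H F χ = 0 ↔ ∃ m : ℕ, 0 < m ∧ Equality H m χ :=
  GD.dft_zero (BLv.g (K := K) (k := k) (H := H)) hF h

/-- the linear characters trivial on `Gal(K̄/L)` are finite in number -/
theorem finite_lin (F L : Sub K) (hL : FinExt L) :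
    Finite {ψ : Lin F // ∀ g : GalF F, (g : Gal(AlgebraicClosure K/K)) ∈ L.fixingSubgroup →
      ψ.fn g = 1} := by
  have h1 := BK.finite_lin F L hL
  refine Finite.of_injective (β := {ψ : RS.Lin F // ∀ g : GalF F,
    (g : Gal(AlgebraicClosure K/K)) ∈ L.fixingSubgroup → ψ.hom g = 1})
    (fun ψ => ⟨⟨ψ.1, ⟨L, hL, fun g hg => Units.ext (ψ.2 g hg)⟩⟩,
      fun g hg => Units.ext (ψ.2 g hg)⟩) ?_
  intro ψ ψ' h
  exact Subtype.ext (congrArg (fun x => x.1.hom) h)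

theorem lin_inV {T : Set ℕ} {F L' : Sub K} (hF : FinExt F) (hL' : FinExt L')
    (h : ∀ w : AlgebraicClosure K → ℝ, Outside T w → ∀ g ∈ F.fixingSubgroup, Inr w g →
        g ^ 2 ∈ L'.fixingSubgroup) {ψ : GalF F →* ℂˣ}
    (hψ : ∀ g : GalF F, (g : Gal(AlgebraicClosure K/K)) ∈ L'.fixingSubgroup →
      Lin.fn (F := F) ψ g = 1) :
    InV T (Lin.fn (F := F) ψ) := by
  have hs : Smt (F := F) ψ := ⟨L', hL', fun g hg => Units.ext (hψ g hg)⟩
  refine (((examples (K := K)) T F hF).1 ψ hs).2 ?_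
  obtain ⟨E, hE, h2⟩ := hs
  refine ⟨⟨E, hE, fun g hg => ?_⟩, fun p hp hpT w hw g hg => ?_⟩
  · change ψ g ^ 2 = 1
    rw [h2 g hg, one_pow]
  · have h3 := h w ⟨p, hp, hpT, hw⟩ g.1 g.2 hg
    have h4 := hψ (g ^ 2) h3
    have h5 : ψ (g ^ 2) = ψ g ^ 2 := map_pow ψ g 2
    change ((ψ g ^ 2 : ℂˣ) : ℂ) = 1
    rw [← h5]
    exact h4

theorem beilinson (H : Motivic K k) : Beilinson K k H := by
  intro M T hM hS
  obtain ⟨h1, h2⟩ := reduction (K := K) (T := T) hM (defects_tfd H) (defect_addInd H)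
    (fun F hF ψ hψ => (defect_zero H hF (cls_char hψ)).2 (hS F hF ψ hψ))
  have h3 : ∀ F : Sub K, FinExt F → ∀ χ : Fn F, Char χ → InV T χ →
      ∃ m : ℕ, 0 < m ∧ Equality H m χ :=
    fun F hF χ hχ hc => (defect_zero H hF hχ).1 (h1 F hF χ hχ hc)
  refine ⟨h3, fun F L' hF hL' h4 => ?_, h2⟩
  have hfin := finite_lin F L' hL'
  have hft : Fintype {ψ : Lin F // ∀ g : GalF F, (g : Gal(AlgebraicClosure K/K)) ∈
    L'.fixingSubgroup → ψ.fn g = 1} := Fintype.ofFinite _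
  have h5 : ∀ ψ : {ψ : Lin F // ∀ g : GalF F, (g : Gal(AlgebraicClosure K/K)) ∈
      L'.fixingSubgroup → ψ.fn g = 1}, ∃ m : ℕ, 0 < m ∧ Equality H m ψ.1.fn := fun ψ =>
    h3 F hF _ (lin_char ψ.1 ⟨L', hL', fun g hg => Units.ext (ψ.2 g hg)⟩)
      (lin_inV hF hL' h4 ψ.2)
  choose m hm h6 using h5
  refine ⟨∏ ψ, m ψ, Finset.prod_pos fun ψ _ => hm ψ, fun ψ hψ => ?_⟩
  obtain ⟨N₀, h7, h8⟩ := h6 ⟨ψ, hψ⟩
  refine ⟨N₀, h7, fun ℓ hℓ σ => ?_⟩
  obtain ⟨c, hc⟩ : m ⟨ψ, hψ⟩ ∣ ∏ ψ, m ψ := Finset.dvd_prod_of_mem m (Finset.mem_univ _)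
  rw [hc, pow_mul, pow_mul]
  exact congrArg (· ^ c) (h8 ℓ hℓ σ)

theorem algebraicity (H : Motivic K k) : Algebraicity K k H := by
  intro M T hM hS F hF χ hχ hV
  obtain ⟨m, hm, h2⟩ := ((principle (K := K) M T F χ hM hF (char_virt hF hχ)).out 0 1).1 hV
  obtain ⟨h3, h4⟩ := ind_closure hF _ h2
  have h6 : (⟨_, h3⟩ : RChar F.fixingSubgroup) = m • ⟨χ, char_virt hF hχ⟩ := rfl
  rw [h6, map_nsmul] at h4
  refine GD.alg_of_mem (BLv.g (K := K) (k := k) (H := H)) hF hχ hm h4 ?_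
  rintro f ⟨F', ψ, hF', hψ, rfl⟩
  exact (GD.alg_ev BLv.g hF' (cls_char hψ)).1 (hS F' hF' ψ hψ)

end

end Pool.Agent.Q20.RS.RL.BL
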